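import Pool.Agent.Y271.RO.Stm

/-!
# Project RO of helper271: the function `q` of a polygon (`S_POL`)
-/

set_option autoImplicit false

namespace Pool.Agent.Y145.RO.POL

open MeasureTheory Set Metric Filter Topology
open scoped InnerProductSpace ENNReal NNReal ComplexConjugate ContDiff
open Pool.Agent.Y271.RO (db pk cost)

/-- the denominator -/
noncomputable def D (ε : ℝ) (y : ℂ) : ℝ := ‖y‖ ^ 2 + ε ^ 2

/-- the kernel -/
noncomputable def kk (ε : ℝ) (y : ℂ) : ℂ := conj y * (((D ε y)⁻¹ : ℝ) : ℂ)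

theorem D_pos {ε : ℝ} (hε : 0 < ε) (y : ℂ) : 0 < D ε y := by
  unfold D; positivity

theorem hasFDerivAt_D (ε : ℝ) (y : ℂ) : HasFDerivAt (D ε) (2 • (innerSL ℝ y)) y := by
  unfold D
  exact (hasStrictFDerivAt_norm_sq y).hasFDerivAt.add_const _

theorem contDiff_D (ε : ℝ) : ContDiff ℝ 1 (D ε) := by
  unfold D
  exact (contDiff_norm_sq ℝ).add contDiff_const

theorem contDiff_kk {ε : ℝ} (hε : 0 < ε) : ContDiff ℝ 1 (kk ε) := by
  unfold kk
  apply ContDiff.mul
  · exact Complex.conjCLE.contDiff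
  · apply Complex.ofRealCLM.contDiff.comp
    exact (contDiff_D ε).inv (fun y => (D_pos hε y).ne')

theorem db_kk {ε : ℝ} (hε : 0 < ε) (y : ℂ) : db (kk ε) y = ((Real.pi * pk ε y : ℝ) : ℂ) := by
  have hD := D_pos hε y
  have h1 : HasFDerivAt (fun y : ℂ => conj y) (Complex.conjCLE : ℂ →L[ℝ] ℂ) y :=
    (Complex.conjCLE : ℂ →L[ℝ] ℂ).hasFDerivAt
  have h2 : HasFDerivAt (fun y : ℂ => (((D ε y)⁻¹ : ℝ) : ℂ))
      (Complex.ofRealCLM.comp ((-(D ε y ^ 2)⁻¹) • (2 • (innerSL ℝ y)))) y := by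
    have h3 := (hasDerivAt_inv hD.ne').comp_hasFDerivAt y (hasFDerivAt_D ε y)
    exact (Complex.ofRealCLM.hasFDerivAt).comp y h3
  have h3 := (h1.mul h2).fderiv
  have h4 : fderiv ℝ (kk ε) y = conj y • (Complex.ofRealCLM.comp ((-(D ε y ^ 2)⁻¹) • (2 • (innerSL ℝ y)))) +
      (((D ε y)⁻¹ : ℝ) : ℂ) • (Complex.conjCLE : ℂ →L[ℝ] ℂ) := h3
  unfold db
  rw [h4]
  have hin1 : (innerSL ℝ y) (1 : ℂ) = y.re := by
    simp [Complex.inner]
  have hinI : (innerSL ℝ y) (Complex.I) = y.im := by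
    simp [Complex.inner]
  simp only [add_apply, smul_apply,
    ContinuousLinearMap.comp_apply, hin1, hinI, Complex.ofRealCLM_apply, smul_eq_mul, nsmul_eq_mul,
    ContinuousLinearEquiv.coe_coe, Complex.conjCLE_apply, map_one, Complex.conj_I]
  have hpk : Real.pi * pk ε y = ε ^ 2 * (D ε y ^ 2)⁻¹ := by
    unfold pk D
    have := Real.pi_pos
    field_simp
  rw [hpk]
  have hI : Complex.I * Complex.I = -1 := Complex.I_mul_I
  have hns : (conj y) * y = ((‖y‖ ^ 2 : ℝ) : ℂ) := by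
    rw [mul_comm, Complex.mul_conj, Complex.normSq_eq_norm_sq]
  have hre : (y.re : ℂ) + y.im * Complex.I = y := Complex.re_add_im y
  have hDD : ((D ε y : ℝ) : ℂ) = ((‖y‖ ^ 2 : ℝ) : ℂ) + ((ε ^ 2 : ℝ) : ℂ) := by
    unfold D; push_cast; ring
  have hDne : ((D ε y : ℝ) : ℂ) ≠ 0 := by exact_mod_cast hD.ne'
  push_cast
  set d : ℂ := ((D ε y : ℝ) : ℂ) with hd
  have key : (conj y * (-(d ^ 2)⁻¹ * (2 * (y.re : ℂ))) + d⁻¹ * 1 +
      Complex.I * (conj y * (-(d ^ 2)⁻¹ * (2 * (y.im : ℂ))) + d⁻¹ * -Complex.I)) / 2 =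
      d⁻¹ - (conj y * y) * (d ^ 2)⁻¹ := by
    linear_combination (-(conj y * (d ^ 2)⁻¹)) * hre - (d⁻¹ / 2) * hI
  rw [key, hns]
  have : ((‖y‖ ^ 2 : ℝ) : ℂ) = d - ((ε ^ 2 : ℝ) : ℂ) := by rw [hDD]; ring
  rw [this]
  field_simp
  push_cast
  ring

/-- parametric integral of a `C¹` function over a segment -/
noncomputable def Sg (k : ℂ → ℂ) (p e w : ℂ) : ℂ := ∫ t in (0:ℝ)..1, k (p + t * e - w)

theorem hasFDerivAt_Sg {k : ℂ → ℂ} (hk : ContDiff ℝ 1 k) (p e w : ℂ) :
    HasFDerivAt (Sg k p e) (∫ t in (0:ℝ)..1, -(fderiv ℝ k (p + t * e - w))) w := by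
  have hkd : Differentiable ℝ k := hk.differentiable one_ne_zero
  have hkc : Continuous (fderiv ℝ k) := hk.continuous_fderiv one_ne_zero
  have hcont : ∀ w : ℂ, Continuous (fun t : ℝ => p + (t : ℂ) * e - w) := fun w => by fun_prop
  -- a bound
  have hK : IsCompact ((fun q : ℝ × ℂ => p + (q.1 : ℂ) * e - q.2) '' (Icc (0:ℝ) 1 ×ˢ closedBall w 1)) :=
    (isCompact_Icc.prod (isCompact_closedBall w 1)).image (by fun_prop)
  obtain ⟨C, hC⟩ := hK.exists_bound_of_continuousOn (f := fderiv ℝ k) hkc.continuousOn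
  apply intervalIntegral.hasFDerivAt_integral_of_dominated_of_fderiv_le
    (F := fun w t => k (p + t * e - w)) (F' := fun w t => -(fderiv ℝ k (p + t * e - w)))
    (bound := fun _ => C) (ball_mem_nhds w one_pos)
  · exact Eventually.of_forall fun w => (hk.continuous.comp (hcont w)).aestronglyMeasurable
  · exact (hk.continuous.comp (hcont w)).intervalIntegrable _ _
  · exact (hkc.comp (hcont w)).neg.aestronglyMeasurable
  · refine Eventually.of_forall fun t ht x hx => ?_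
    rw [norm_neg]
    apply hC
    refine ⟨(t, x), ⟨?_, ball_subset_closedBall hx⟩, rfl⟩
    rw [uIoc_of_le zero_le_one] at ht
    exact ⟨ht.1.le, ht.2⟩
  · exact intervalIntegrable_const
  · refine Eventually.of_forall fun t ht x hx => ?_
    have h1 : HasFDerivAt (fun w : ℂ => p + (t : ℂ) * e - w) (-(ContinuousLinearMap.id ℝ ℂ)) x :=
      (hasFDerivAt_id x).const_sub _
    have h2 := (hkd (p + (t : ℂ) * e - x)).hasFDerivAt.comp x h1
    exact h2.congr_fderiv (ContinuousLinearMap.ext fun v => by simp)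

theorem contDiff_Sg {k : ℂ → ℂ} (hk : ContDiff ℝ 1 k) (p e : ℂ) : ContDiff ℝ 1 (Sg k p e) := by
  have hkc : Continuous (fderiv ℝ k) := hk.continuous_fderiv one_ne_zero
  rw [contDiff_one_iff_fderiv]
  refine ⟨fun w => (hasFDerivAt_Sg hk p e w).differentiableAt, ?_⟩
  have : fderiv ℝ (Sg k p e) = fun w => ∫ t in (0:ℝ)..1, -(fderiv ℝ k (p + t * e - w)) := by
    funext w
    exact (hasFDerivAt_Sg hk p e w).fderiv
  rw [this]
  apply intervalIntegral.continuous_parametric_intervalIntegral_of_continuous'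
  apply Continuous.neg
  exact hkc.comp (by fun_prop)

theorem db_Sg {ε : ℝ} (hε : 0 < ε) (p e w : ℂ) :
    db (Sg (kk ε) p e) w = -(((Real.pi * ∫ t in (0:ℝ)..1, pk ε (p + t * e - w) : ℝ)) : ℂ) := by
  have hk := contDiff_kk hε
  have hkc : Continuous (fderiv ℝ (kk ε)) := hk.continuous_fderiv one_ne_zero
  have hcont : Continuous (fun t : ℝ => -(fderiv ℝ (kk ε) (p + (t : ℂ) * e - w))) :=
    (hkc.comp (by fun_prop)).neg
  have happ : ∀ v : ℂ, (∫ t in (0:ℝ)..1, -(fderiv ℝ (kk ε) (p + t * e - w))) v =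
      ∫ t in (0:ℝ)..1, (-(fderiv ℝ (kk ε) (p + t * e - w))) v := by
    intro v
    exact ContinuousLinearMap.intervalIntegral_apply (hcont.intervalIntegrable _ _) v
  have hcI : Continuous (fun t : ℝ => Complex.I *
      (-(fderiv ℝ (kk ε) (p + (t : ℂ) * e - w))) Complex.I) :=
    continuous_const.mul (hcont.clm_apply continuous_const)
  have hcv : ∀ v : ℂ, Continuous (fun t : ℝ => (-(fderiv ℝ (kk ε) (p + (t : ℂ) * e - w))) v) :=
    fun v => hcont.clm_apply continuous_const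
  unfold db
  rw [(hasFDerivAt_Sg hk p e w).fderiv, happ, happ, ← intervalIntegral.integral_const_mul,
    ← intervalIntegral.integral_add ((hcv 1).intervalIntegrable _ _)
      (hcI.intervalIntegrable _ _),
    ← intervalIntegral.integral_div]
  have h1 : ∀ t : ℝ, ((-(fderiv ℝ (kk ε) (p + (t : ℂ) * e - w))) 1 +
      Complex.I * (-(fderiv ℝ (kk ε) (p + (t : ℂ) * e - w))) Complex.I) / 2 =
      ((-(Real.pi * pk ε (p + t * e - w)) : ℝ) : ℂ) := by
    intro t
    have h2 := db_kk hε (p + (t : ℂ) * e - w)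
    unfold db at h2
    push_cast at h2 ⊢
    rw [← h2]
    simp only [Pi.neg_apply]
    ring
  simp only [h1]
  rw [intervalIntegral.integral_ofReal, intervalIntegral.integral_neg,
    intervalIntegral.integral_const_mul]
  push_cast
  ring

theorem re_Sg {ε : ℝ} (hε : 0 < ε) (p e w : ℂ) :
    (e * Sg (kk ε) p e w).re = 1 / 2 * (Real.log (D ε (p + e - w)) - Real.log (D ε (p - w))) := by
  have hk := contDiff_kk hε
  have hc : Continuous (fun t : ℝ => e * kk ε (p + (t : ℂ) * e - w)) :=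
    continuous_const.mul (hk.continuous.comp (by fun_prop))
  unfold Sg
  rw [← intervalIntegral.integral_const_mul]
  have h1 : (∫ t in (0:ℝ)..1, e * kk ε (p + (t : ℂ) * e - w)).re =
      ∫ t in (0:ℝ)..1, (e * kk ε (p + (t : ℂ) * e - w)).re := by
    have := Complex.reCLM.intervalIntegral_comp_comm (hc.intervalIntegrable (μ := volume) 0 1)
    simpa using this.symm
  rw [h1]
  have hder : ∀ t ∈ uIcc (0:ℝ) 1, HasDerivAt (fun t : ℝ => 1 / 2 * Real.log (D ε (p + (t : ℂ) * e - w)))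
      ((e * kk ε (p + (t : ℂ) * e - w)).re) t := by
    intro t _
    have h2 : HasDerivAt (fun t : ℝ => p + (t : ℂ) * e - w) e t := by
      have := ((Complex.ofRealCLM.hasDerivAt (x := t)).mul_const e).const_add p |>.sub_const w
      simpa using this
    have h3 := (hasFDerivAt_D ε (p + (t : ℂ) * e - w)).comp_hasDerivAt t h2
    have h4 := (h3.log (D_pos hε _).ne').const_mul (1 / 2)
    refine HasDerivAt.congr_deriv h4 ?_
    simp only [kk, smul_apply, innerSL_apply_apply, Complex.inner, nsmul_eq_mul,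
      Function.comp_apply]
    rw [← mul_assoc, Complex.re_mul_ofReal]
    push_cast
    field_simp
  rw [intervalIntegral.integral_eq_sub_of_hasDerivAt hder]
  · simp only [Complex.ofReal_one, one_mul, Complex.ofReal_zero, zero_mul, add_zero]
    ring
  · exact ((Complex.continuous_re.comp hc)).intervalIntegrable _ _

theorem main : Pool.Agent.Y271.RO.S_POL := by
  intro z m ε hε
  have hk := contDiff_kk hε
  set Φ : ℂ → ℂ := fun w => ∑ j ∈ Finset.range m, (z (j + 1) - z j) * Sg (kk ε) (z j) (z (j + 1) - z j) w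
    with hΦ
  have hΦc : ContDiff ℝ 1 Φ := by
    apply ContDiff.sum
    intro j _
    exact contDiff_const.mul (contDiff_Sg hk _ _)
  have hre : ∀ w, (Φ w).re = 1 / 2 * (Real.log (D ε (z m - w)) - Real.log (D ε (z 0 - w))) := by
    intro w
    simp only [hΦ, Complex.re_sum, re_Sg hε]
    rw [← Finset.mul_sum]
    congr 1
    rw [← Finset.sum_range_sub (fun j => Real.log (D ε (z j - w)))]
    apply Finset.sum_congr rfl
    intro j _
    congr 3
    ring
  have hdbΦ : ∀ w, ‖db Φ w‖ ≤ Real.pi * cost (fun y => pk ε (y - w)) z m := by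
    intro w
    have hd : ∀ j, DifferentiableAt ℝ (Sg (kk ε) (z j) (z (j + 1) - z j)) w := fun j =>
      (hasFDerivAt_Sg hk _ _ w).differentiableAt
    have h1 : db Φ w = ∑ j ∈ Finset.range m, (z (j + 1) - z j) *
        db (Sg (kk ε) (z j) (z (j + 1) - z j)) w := by
      have h2 : HasFDerivAt Φ (∑ j ∈ Finset.range m, (z (j + 1) - z j) •
          fderiv ℝ (Sg (kk ε) (z j) (z (j + 1) - z j)) w) w := by
        apply HasFDerivAt.fun_sum
        intro j _
        exact (hd j).hasFDerivAt.const_mul _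
      unfold db
      rw [h2.fderiv]
      simp only [sum_apply, smul_apply, smul_eq_mul]
      rw [Finset.mul_sum, ← Finset.sum_add_distrib, Finset.sum_div]
      apply Finset.sum_congr rfl
      intro j _
      ring
    rw [h1]
    unfold cost
    rw [Finset.mul_sum]
    refine (norm_sum_le _ _).trans (Finset.sum_le_sum fun j _ => ?_)
    rw [db_Sg hε, norm_mul, norm_neg, Complex.norm_real, Real.norm_eq_abs, abs_of_nonneg]
    · exact le_of_eq (by ring)
    · apply mul_nonneg Real.pi_pos.le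
      apply intervalIntegral.integral_nonneg zero_le_one
      intro t _
      unfold pk
      positivity
  refine ⟨fun w => (w - z 0) * Complex.exp ((1 / 2 : ℂ) * Φ w), ?_, ?_, ?_⟩
  · exact (contDiff_id.sub contDiff_const).mul ((Complex.contDiff_exp (𝕜 := ℝ)).comp (contDiff_const.mul hΦc))
  · intro w
    have h0 : D ε (z 0 - w) = ‖w - z 0‖ ^ 2 + ε ^ 2 := by unfold D; rw [norm_sub_rev]
    have hm : D ε (z m - w) = ‖w - z m‖ ^ 2 + ε ^ 2 := by unfold D; rw [norm_sub_rev]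
    have h0p := D_pos hε (z 0 - w)
    have hmp := D_pos hε (z m - w)
    rw [← h0, ← hm, norm_mul, mul_pow, Complex.norm_exp, ← Real.exp_nat_mul]
    have h3 : ((4 : ℕ) : ℝ) * ((1 / 2 : ℂ) * Φ w).re =
        Real.log (D ε (z m - w)) - Real.log (D ε (z 0 - w)) := by
      have : ((1 / 2 : ℂ) * Φ w).re = (Φ w).re / 2 := by
        rw [show (1 / 2 : ℂ) = ((1 / 2 : ℝ) : ℂ) by push_cast; rfl, Complex.re_ofReal_mul]; ring
      rw [this, hre]; push_cast; ring
    rw [h3, Real.exp_sub, Real.exp_log hmp, Real.exp_log h0p]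
    field_simp
  · intro w
    have hΦd : HasFDerivAt Φ (fderiv ℝ Φ w) w := (hΦc.differentiable one_ne_zero w).hasFDerivAt
    have h1 : HasFDerivAt (fun w : ℂ => w - z 0) (ContinuousLinearMap.id ℝ ℂ) w :=
      (hasFDerivAt_id w).sub_const _
    have h2 : HasFDerivAt (fun w => Complex.exp ((1 / 2 : ℂ) * Φ w))
        (Complex.exp ((1 / 2 : ℂ) * Φ w) • ((1 / 2 : ℂ) • fderiv ℝ Φ w)) w := by
      have h3 : HasFDerivAt (fun w => (1 / 2 : ℂ) * Φ w) ((1 / 2 : ℂ) • fderiv ℝ Φ w) w :=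
        hΦd.const_mul (1 / 2 : ℂ)
      exact h3.cexp
    have h4 := (h1.mul h2).fderiv
    have h5 : db (fun w => (w - z 0) * Complex.exp ((1 / 2 : ℂ) * Φ w)) w =
        ((w - z 0) * Complex.exp ((1 / 2 : ℂ) * Φ w)) * db Φ w / 2 := by
      unfold db
      have h6 : fderiv ℝ (fun w => (w - z 0) * Complex.exp ((1 / 2 : ℂ) * Φ w)) w =
        (w - z 0) • (Complex.exp ((1 / 2 : ℂ) * Φ w) • ((1 / 2 : ℂ) • fderiv ℝ Φ w)) +
          Complex.exp ((1 / 2 : ℂ) * Φ w) • (ContinuousLinearMap.id ℝ ℂ) := h4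
      rw [h6]
      simp only [add_apply, smul_apply, smul_eq_mul,
        ContinuousLinearMap.id_apply]
      linear_combination (Complex.exp ((1 / 2 : ℂ) * Φ w) / 2) * Complex.I_mul_I
    rw [h5, norm_div, norm_mul]
    have h7 := hdbΦ w
    have h8 : ‖(2 : ℂ)‖ = 2 := by simp
    rw [h8]
    have h9 := norm_nonneg ((w - z 0) * Complex.exp ((1 / 2 : ℂ) * Φ w))
    calc ‖(w - z 0) * Complex.exp ((1 / 2 : ℂ) * Φ w)‖ * ‖db Φ w‖ / 2
        ≤ ‖(w - z 0) * Complex.exp ((1 / 2 : ℂ) * Φ w)‖ * (Real.pi * cost (fun y => pk ε (y - w)) z m) / 2 := by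
          gcongr
      _ = Real.pi / 2 * ‖(w - z 0) * Complex.exp ((1 / 2 : ℂ) * Φ w)‖ * cost (fun y => pk ε (y - w)) z m := by
          ring

end Pool.Agent.Y145.RO.POL
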